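import Mathlib

/-!
The least resolved tree of an induced best match subgraph of a quasi-best match graph is
displayed by every tree that explains the quasi-best match graph.
-/

set_option autoImplicit false
set_option linter.unusedSectionVars false

namespace Pool.Agent.Results.MP_5c2e51_co.LRTDisplayed

open Finset
open scoped Classical

variable {L S : Type} [Fintype L]

/-- A rooted phylogenetic tree with leaf set `X`, given by its clusters: a vertex `v` is
represented by the set of leaves `x ⪯ v`. The root is `X`, the leaf `x` is `{x}`, and every inner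
vertex has at least two children since distinct vertices have distinct clusters. -/
structure IsPhyloTree (X : Finset L) (T : Finset (Finset L)) : Prop where
  root : X ∈ T
  leaf : ∀ x ∈ X, {x} ∈ T
  sub : ∀ C ∈ T, C ⊆ X
  nonempty : ∀ C ∈ T, C.Nonempty
  laminar : ∀ C ∈ T, ∀ D ∈ T, C ⊆ D ∨ D ⊆ C ∨ Disjoint C D

/-- The least common ancestor of `x` and `y`, as a cluster. -/
noncomputable def lca (T : Finset (Finset L)) (x y : L) : Finset L :=
  univ.filter (fun z => ∀ C ∈ T, x ∈ C → y ∈ C → z ∈ C)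

/-- A truncation map: `u x s` is a vertex of `T` above the leaf `x`. -/
def IsTruncation (σ : L → S) (X : Finset L) (T : Finset (Finset L))
    (u : L → S → Finset L) : Prop :=
  ∀ x ∈ X, ∀ s, s ≠ σ x → u x s ∈ T ∧ x ∈ u x s

/-- The arcs of the quasi-best match graph of `(T, σ, u)`. -/
def QArc (σ : L → S) (X : Finset L) (T : Finset (Finset L)) (u : L → S → Finset L)
    (x y : L) : Prop :=
  σ x ≠ σ y ∧ (¬ ∃ y' ∈ X, σ y' = σ y ∧ lca T x y' ⊂ lca T x y) ∧ lca T x y ⊆ u x (σ y)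

/-- `(T, σ, u)` explains the induced subgraph of `(G, σ)` on `X`. -/
def Explains (σ : L → S) (G : L → L → Prop) (X : Finset L) (T : Finset (Finset L))
    (u : L → S → Finset L) : Prop :=
  IsPhyloTree X T ∧ IsTruncation σ X T u ∧ ∀ x ∈ X, ∀ y ∈ X, (G x y ↔ QArc σ X T u x y)

/-- `(T, σ)` explains the induced subgraph of `(G, σ)` on `X` as a best match graph: all values
of the truncation map are the root `X`. -/
def ExplainsBMG (σ : L → S) (G : L → L → Prop) (X : Finset L) (T : Finset (Finset L)) : Prop :=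
  Explains σ G X T (fun _ _ => X)

/-- `T` displays the tree `T'` with leaf set `X'`: the clusters of `T'` are among the clusters
`C ∩ X'` of the restriction of `T` to `X'`. -/
def Displays (T T' : Finset (Finset L)) (X' : Finset L) : Prop :=
  IsPhyloTree X' T' ∧ ∀ C' ∈ T', ∃ C ∈ T, C' = C ∩ X'

/-- `T` is a least resolved tree of the best match graph `(G, σ)[X]`. -/
def IsLeastResolvedBMG (σ : L → S) (G : L → L → Prop) (X : Finset L)
    (T : Finset (Finset L)) : Prop :=
  ExplainsBMG σ G X T ∧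
    ∀ T' : Finset (Finset L), Displays T T' X → T' ≠ T → ¬ ExplainsBMG σ G X T'

section aux

variable {X : Finset L} {T : Finset (Finset L)}

lemma mem_lca {x y z : L} : z ∈ lca T x y ↔ ∀ C ∈ T, x ∈ C → y ∈ C → z ∈ C := by simp [lca]

lemma left_mem_lca (x y : L) : x ∈ lca T x y := mem_lca.2 (fun _ _ h _ => h)

lemma right_mem_lca (x y : L) : y ∈ lca T x y := mem_lca.2 (fun _ _ _ h => h)

lemma lca_subset {x y : L} {C : Finset L} (hC : C ∈ T) (hx : x ∈ C) (hy : y ∈ C) :
    lca T x y ⊆ C := fun _ hz => mem_lca.1 hz C hC hx hy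

lemma lca_mem (h : IsPhyloTree X T) {x y : L} (hx : x ∈ X) (hy : y ∈ X) : lca T x y ∈ T := by
  have hne : (T.filter (fun C => x ∈ C ∧ y ∈ C)).Nonempty :=
    ⟨X, mem_filter.2 ⟨h.root, hx, hy⟩⟩
  obtain ⟨C0, hC0, hmin⟩ := exists_min_image _ card hne
  rw [mem_filter] at hC0
  have he : lca T x y = C0 := by
    apply Subset.antisymm (lca_subset hC0.1 hC0.2.1 hC0.2.2)
    intro z hz
    rw [mem_lca]
    intro C hC hxC hyC
    rcases h.laminar C0 hC0.1 C hC with h1 | h1 | h1
    · exact h1 hz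
    · have h2 := hmin C (mem_filter.2 ⟨hC, hxC, hyC⟩)
      rw [eq_of_subset_of_card_le h1 h2]
      exact hz
    · exact absurd hxC (disjoint_left.1 h1 hC0.2.1)
  rw [he]
  exact hC0.1

lemma comparable (h : IsPhyloTree X T) {C D : Finset L} (hC : C ∈ T) (hD : D ∈ T) {x : L}
    (hx : x ∈ C) (hx' : x ∈ D) : C ⊆ D ∨ D ⊆ C := by
  rcases h.laminar C hC D hD with h1 | h1 | h1
  · exact Or.inl h1
  · exact Or.inr h1
  · exact absurd hx' (disjoint_left.1 h1 hx)

lemma not_ssubset_iff' (h : IsPhyloTree X T) {x y y' : L} (hx : x ∈ X) (hy : y ∈ X)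
    (hy' : y' ∈ X) : ¬ (lca T x y' ⊂ lca T x y) ↔ lca T x y ⊆ lca T x y' := by
  constructor
  · intro hn
    rcases comparable h (lca_mem h hx hy) (lca_mem h hx hy') (left_mem_lca x y)
      (left_mem_lca x y') with h1 | h1
    · exact h1
    · by_contra h2
      exact hn ⟨h1, h2⟩
  · intro h1 h2
    exact h2.2 h1

/-- the arcs without truncation -/
lemma bmg_arc_iff {σ : L → S} {G : L → L → Prop} (h : ExplainsBMG σ G X T) {x y : L}
    (hx : x ∈ X) (hy : y ∈ X) :
    G x y ↔ σ x ≠ σ y ∧ ∀ y' ∈ X, σ y' = σ y → lca T x y ⊆ lca T x y' := by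
  rw [h.2.2 x hx y hy]
  constructor
  · rintro ⟨h1, h2, _⟩
    refine ⟨h1, fun y' hy' hs => ?_⟩
    rw [← not_ssubset_iff' h.1 hx hy hy']
    exact fun h3 => h2 ⟨y', hy', hs, h3⟩
  · rintro ⟨h1, h2⟩
    refine ⟨h1, ?_, h.1.sub _ (lca_mem h.1 hx hy)⟩
    rintro ⟨y', hy', hs, h3⟩
    exact h3.2 (h2 y' hy' hs)

lemma exists_best {σ : L → S} {G : L → L → Prop} (h : ExplainsBMG σ G X T) {x y : L}
    (hx : x ∈ X) (hy : y ∈ X) (hxy : σ x ≠ σ y) : ∃ y0 ∈ X, σ y0 = σ y ∧ G x y0 := by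
  have hne : (X.filter (fun z => σ z = σ y)).Nonempty := ⟨y, mem_filter.2 ⟨hy, rfl⟩⟩
  obtain ⟨y0, hy0, hmin⟩ := exists_min_image _ (fun z => (lca T x z).card) hne
  rw [mem_filter] at hy0
  refine ⟨y0, hy0.1, hy0.2, ?_⟩
  rw [bmg_arc_iff h hx hy0.1]
  refine ⟨by rw [hy0.2]; exact hxy, fun y' hy' hs => ?_⟩
  rcases comparable h.1 (lca_mem h.1 hx hy0.1) (lca_mem h.1 hx hy') (left_mem_lca x y0)
    (left_mem_lca x y') with h1 | h1
  · exact h1
  · have h2 := hmin y' (mem_filter.2 ⟨hy', hs.trans hy0.2⟩)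
    rw [eq_of_subset_of_card_le h1 h2]

/-- one step of the alternating chain -/
lemma step {σ : L → S} {G : L → L → Prop} {T1 T2 : Finset (Finset L)}
    (E1 : ExplainsBMG σ G X T1) (E2 : ExplainsBMG σ G X T2) {x y0 : L} (hx : x ∈ X)
    (hy0 : y0 ∈ X) (hxy0 : G x y0) {A B : Finset L} (hA : A ∈ T1) (hxA : x ∈ A)
    (hy0A : y0 ∈ A) (hAN : ∀ y ∈ A, σ y = σ y0 → G x y) (hB : B ∈ T2) (hAB : A ⊆ B)
    (hBmin : ∀ D ∈ T2, A ⊆ D → B.card ≤ D.card) : ∀ y ∈ B, σ y = σ y0 → G x y := by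
  intro y' hy'B hs'
  by_contra hnot
  have hAX := E1.1.sub A hA
  have hBX := E2.1.sub B hB
  have hy'X := hBX hy'B
  -- an element z of A with lca x z = B
  obtain ⟨z, hzA, hmax⟩ := exists_max_image A (fun z => (lca T2 x z).card) ⟨x, hxA⟩
  have hzX := hAX hzA
  have hzB : lca T2 x z = B := by
    have h1 : lca T2 x z ⊆ B := lca_subset hB (hAB hxA) (hAB hzA)
    have h2 : A ⊆ lca T2 x z := by
      intro w hw
      rcases comparable E2.1 (lca_mem E2.1 hx (hAX hw)) (lca_mem E2.1 hx hzX)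
        (left_mem_lca x w) (left_mem_lca x z) with h3 | h3
      · exact h3 (right_mem_lca x w)
      · rw [eq_of_subset_of_card_le h3 (hmax w hw)]
        exact right_mem_lca x w
    exact eq_of_subset_of_card_le h1 (hBmin _ (lca_mem E2.1 hx hzX) h2)
  have hxy0' := (bmg_arc_iff E2 hx hy0).1 hxy0
  -- y' is not a best match of x
  have hno : ¬ lca T2 x y' ⊆ lca T2 x y0 := by
    intro h1
    apply hnot
    rw [bmg_arc_iff E2 hx hy'X]
    refine ⟨by rw [hs']; exact hxy0'.1, fun y'' hy'' hs'' => ?_⟩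
    exact h1.trans (hxy0'.2 y'' hy'' (hs''.trans hs'))
  by_cases hzs : σ z = σ y0
  · -- z is a best match of x
    have h1 : G x z := hAN z hzA hzs
    have h2 := ((bmg_arc_iff E2 hx hzX).1 h1).2 y0 hy0 hzs.symm
    rw [hzB] at h2
    exact hno ((lca_subset hB (hAB hxA) hy'B).trans h2)
  · obtain ⟨y1, hy1X, hy1s, hzy1⟩ := exists_best E1 hzX hy0 hzs
    have hzy1' := ((bmg_arc_iff E1 hzX hy1X).1 hzy1).2 y0 hy0 hy1s.symm
    have hy1A : y1 ∈ A := (hzy1'.trans (lca_subset hA hzA hy0A)) (right_mem_lca z y1)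
    have hxy1 : G x y1 := hAN y1 hy1A hy1s
    have hxy1' := (bmg_arc_iff E2 hx hy1X).1 hxy1
    have hzn : z ∉ lca T2 x y1 := by
      intro h1
      have h2 : lca T2 x z ⊆ lca T2 x y1 :=
        lca_subset (lca_mem E2.1 hx hy1X) (left_mem_lca x y1) h1
      rw [hzB] at h2
      exact hno (((lca_subset hB (hAB hxA) hy'B).trans h2).trans
        (hxy1'.2 y0 hy0 hy1s.symm))
    have h3 : x ∈ lca T2 z y1 := by
      rcases comparable E2.1 (lca_mem E2.1 hzX hy1X) (lca_mem E2.1 hx hy1X)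
        (right_mem_lca z y1) (right_mem_lca x y1) with h4 | h4
      · exact absurd (h4 (left_mem_lca z y1)) hzn
      · exact h4 (left_mem_lca x y1)
    have h5 : B ⊆ lca T2 z y1 := by
      rw [← hzB]
      exact lca_subset (lca_mem E2.1 hzX hy1X) h3 (left_mem_lca z y1)
    -- y' is a best match of z
    have h6 : G z y' := by
      rw [bmg_arc_iff E2 hzX hy'X]
      refine ⟨by rw [hs']; exact hzs, fun y'' hy'' hs'' => ?_⟩
      have h7 := ((bmg_arc_iff E2 hzX hy1X).1 hzy1).2 y'' hy''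
        (hs''.trans (hs'.trans hy1s.symm))
      exact ((lca_subset hB (hAB hzA) hy'B).trans h5).trans h7
    have h8 := ((bmg_arc_iff E1 hzX hy'X).1 h6).2 y0 hy0 hs'.symm
    have h9 : y' ∈ A := (h8.trans (lca_subset hA hzA hy0A)) (right_mem_lca z y')
    exact hnot (hAN y' h9 hs')

/-- the smallest cluster containing a given set -/
lemma exists_min_cluster (h : IsPhyloTree X T) {A : Finset L} (hA : A ⊆ X) :
    ∃ B ∈ T, A ⊆ B ∧ ∀ D ∈ T, A ⊆ D → B.card ≤ D.card := by
  have hne : (T.filter (fun C => A ⊆ C)).Nonempty := ⟨X, mem_filter.2 ⟨h.root, hA⟩⟩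
  obtain ⟨B, hB, hmin⟩ := exists_min_image _ card hne
  rw [mem_filter] at hB
  exact ⟨B, hB.1, hB.2, fun D hD hAD => hmin D (mem_filter.2 ⟨hD, hAD⟩)⟩

/-- if two trees explain a best match graph, so does the tree of their common clusters -/
lemma explains_inter {σ : L → S} {G : L → L → Prop} {T1 T2 : Finset (Finset L)}
    (E1 : ExplainsBMG σ G X T1) (E2 : ExplainsBMG σ G X T2) :
    ExplainsBMG σ G X (T1 ∩ T2) := by
  have hT : IsPhyloTree X (T1 ∩ T2) :=
    { root := mem_inter.2 ⟨E1.1.root, E2.1.root⟩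
      leaf := fun x hx => mem_inter.2 ⟨E1.1.leaf x hx, E2.1.leaf x hx⟩
      sub := fun C hC => E1.1.sub C (mem_inter.1 hC).1
      nonempty := fun C hC => E1.1.nonempty C (mem_inter.1 hC).1
      laminar := fun C hC D hD =>
        E1.1.laminar C (mem_inter.1 hC).1 D (mem_inter.1 hD).1 }
  refine ⟨hT, fun x hx s _ => ⟨hT.root, hx⟩, ?_⟩
  intro x hx y hy
  constructor
  · intro hG
    have h1 := (bmg_arc_iff E1 hx hy).1 hG
    refine ⟨h1.1, ?_, hT.sub _ (lca_mem hT hx hy)⟩
    rintro ⟨y', hy', hs, h2⟩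
    have hC := lca_mem hT hx hy'
    have h3 : lca T1 x y' ⊆ lca (T1 ∩ T2) x y' :=
      lca_subset (mem_inter.1 hC).1 (left_mem_lca x y') (right_mem_lca x y')
    have h4 : y ∈ lca (T1 ∩ T2) x y' := ((h1.2 y' hy' hs).trans h3) (right_mem_lca x y)
    exact h2.2 (lca_subset hC (left_mem_lca x y') h4)
  · rintro ⟨hxy, hbest, _⟩
    obtain ⟨y0, hy0, hs0, hG0⟩ := exists_best E1 hx hy hxy
    -- maximal good cluster
    set F : Finset (Finset L) := (T1 ∪ T2).filter (fun A => x ∈ A ∧ y0 ∈ A ∧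
      ∀ y ∈ A, σ y = σ y0 → G x y) with hF
    have hne : F.Nonempty := by
      refine ⟨lca T1 x y0, ?_⟩
      rw [hF, mem_filter]
      refine ⟨mem_union_left _ (lca_mem E1.1 hx hy0), left_mem_lca x y0, right_mem_lca x y0, ?_⟩
      intro y'' hy'' hs''
      have hy''X : y'' ∈ X := E1.1.sub _ (lca_mem E1.1 hx hy0) hy''
      have h0 := (bmg_arc_iff E1 hx hy0).1 hG0
      rw [bmg_arc_iff E1 hx hy''X]
      refine ⟨by rw [hs'']; exact h0.1, fun w hw hsw => ?_⟩
      exact (lca_subset (lca_mem E1.1 hx hy0) (left_mem_lca x y0) hy'').trans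
        (h0.2 w hw (hsw.trans hs''))
    obtain ⟨A, hAF, hmax⟩ := exists_max_image F card hne
    rw [hF, mem_filter] at hAF
    obtain ⟨hA, hxA, hy0A, hAN⟩ := hAF
    have hAint : A ∈ T1 ∩ T2 := by
      rw [mem_union] at hA
      rw [mem_inter]
      rcases hA with hA | hA
      · obtain ⟨B, hB, hAB, hBmin⟩ := exists_min_cluster E2.1 (E1.1.sub A hA)
        have h1 := step E1 E2 hx hy0 hG0 hA hxA hy0A hAN hB hAB hBmin
        have h2 : B ∈ F := by
          rw [hF, mem_filter]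
          exact ⟨mem_union_right _ hB, hAB hxA, hAB hy0A, h1⟩
        have h3 : A = B := eq_of_subset_of_card_le hAB (hmax B h2)
        exact ⟨hA, h3 ▸ hB⟩
      · obtain ⟨B, hB, hAB, hBmin⟩ := exists_min_cluster E1.1 (E2.1.sub A hA)
        have h1 := step E2 E1 hx hy0 hG0 hA hxA hy0A hAN hB hAB hBmin
        have h2 : B ∈ F := by
          rw [hF, mem_filter]
          exact ⟨mem_union_left _ hB, hAB hxA, hAB hy0A, h1⟩
        have h3 : A = B := eq_of_subset_of_card_le hAB (hmax B h2)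
        exact ⟨h3 ▸ hB, hA⟩
    have h4 : lca (T1 ∩ T2) x y ⊆ lca (T1 ∩ T2) x y0 := by
      rw [← not_ssubset_iff' hT hx hy hy0]
      exact fun h5 => hbest ⟨y0, hy0, hs0, h5⟩
    have h6 : y ∈ A := (h4.trans (lca_subset hAint hxA hy0A)) (right_mem_lca x y)
    exact hAN y h6 hs0.symm

/-- the restriction of a tree to a set of leaves -/
noncomputable def restr (T : Finset (Finset L)) (W : Finset L) : Finset (Finset L) :=
  (T.image (fun C => C ∩ W)).filter (fun C => C.Nonempty)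

lemma mem_restr {W C : Finset L} : C ∈ restr T W ↔ (∃ D ∈ T, D ∩ W = C) ∧ C.Nonempty := by
  simp [restr]

lemma restr_isTree (h : IsPhyloTree X T) {W : Finset L} (hW : W ⊆ X) (hWne : W.Nonempty) :
    IsPhyloTree W (restr T W) where
  root := mem_restr.2 ⟨⟨X, h.root, inter_eq_right.2 hW⟩, hWne⟩
  leaf := fun x hx => mem_restr.2 ⟨⟨{x}, h.leaf x (hW hx), by
    ext z
    rw [mem_inter, mem_singleton]
    constructor
    · exact fun h => h.1
    · rintro rfl; exact ⟨rfl, hx⟩⟩, singleton_nonempty x⟩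
  sub := fun C hC => by
    obtain ⟨⟨D, _, rfl⟩, _⟩ := mem_restr.1 hC
    exact inter_subset_right
  nonempty := fun C hC => (mem_restr.1 hC).2
  laminar := fun C hC D hD => by
    obtain ⟨⟨C', hC', rfl⟩, _⟩ := mem_restr.1 hC
    obtain ⟨⟨D', hD', rfl⟩, _⟩ := mem_restr.1 hD
    rcases h.laminar C' hC' D' hD' with h1 | h1 | h1
    · exact Or.inl (inter_subset_inter_right h1)
    · exact Or.inr (Or.inl (inter_subset_inter_right h1))
    · exact Or.inr (Or.inr (h1.mono inter_subset_left inter_subset_left))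

lemma lca_restr (h : IsPhyloTree X T) {W : Finset L} (hW : W ⊆ X) {x y : L} (hx : x ∈ W)
    (hy : y ∈ W) : lca (restr T W) x y = lca T x y ∩ W := by
  ext z
  rw [mem_inter, mem_lca, mem_lca]
  constructor
  · intro h1
    constructor
    · intro C hC hxC hyC
      have h2 := h1 (C ∩ W) (mem_restr.2 ⟨⟨C, hC, rfl⟩, ⟨x, mem_inter.2 ⟨hxC, hx⟩⟩⟩)
        (mem_inter.2 ⟨hxC, hx⟩) (mem_inter.2 ⟨hyC, hy⟩)
      exact (mem_inter.1 h2).1
    · have h2 := h1 (X ∩ W) (mem_restr.2 ⟨⟨X, h.root, rfl⟩, ⟨x, mem_inter.2 ⟨hW hx, hx⟩⟩⟩)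
        (mem_inter.2 ⟨hW hx, hx⟩) (mem_inter.2 ⟨hW hy, hy⟩)
      exact (mem_inter.1 h2).2
  · rintro ⟨h1, hz⟩ C hC hxC hyC
    obtain ⟨⟨D, hD, rfl⟩, _⟩ := mem_restr.1 hC
    exact mem_inter.2 ⟨h1 D hD (mem_inter.1 hxC).1 (mem_inter.1 hyC).1, hz⟩

/-- the restriction of an explaining tree explains an induced best match graph -/
lemma restr_explains {σ : L → S} {G : L → L → Prop} {u : L → S → Finset L}
    (h : Explains σ G X T u) {W : Finset L} (hW : W ⊆ X) {TW : Finset (Finset L)}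
    (hTW : ExplainsBMG σ G W TW) : ExplainsBMG σ G W (restr T W) := by
  have hWne : W.Nonempty := hTW.1.nonempty W hTW.1.root
  have hR := restr_isTree h.1 hW hWne
  refine ⟨hR, fun x hx s _ => ⟨hR.root, hx⟩, ?_⟩
  intro x hx y hy
  constructor
  · intro hG
    obtain ⟨h1, h2, _⟩ := (h.2.2 x (hW hx) y (hW hy)).1 hG
    refine ⟨h1, ?_, hR.sub _ (lca_mem hR hx hy)⟩
    rintro ⟨y', hy', hs, h3⟩
    rw [lca_restr h.1 hW hx hy', lca_restr h.1 hW hx hy] at h3
    have h4 : lca T x y ⊆ lca T x y' := by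
      rw [← not_ssubset_iff' h.1 (hW hx) (hW hy) (hW hy')]
      exact fun h5 => h2 ⟨y', hW hy', hs, h5⟩
    exact h3.2 (inter_subset_inter_right h4)
  · rintro ⟨hxy, hbest, _⟩
    obtain ⟨y0, hy0, hs0, hG0⟩ := exists_best hTW hx hy hxy
    obtain ⟨h1, h2, h3⟩ := (h.2.2 x (hW hx) y0 (hW hy0)).1 hG0
    have h4 : lca (restr T W) x y ⊆ lca (restr T W) x y0 := by
      rw [← not_ssubset_iff' hR hx hy hy0]
      exact fun h5 => hbest ⟨y0, hy0, hs0, h5⟩
    rw [lca_restr h.1 hW hx hy0] at h4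
    have h5 : y ∈ lca T x y0 := (mem_inter.1 (h4 (right_mem_lca x y))).1
    have h6 : lca T x y ⊆ lca T x y0 :=
      lca_subset (lca_mem h.1 (hW hx) (hW hy0)) (left_mem_lca x y0) h5
    have h7 : lca T x y0 ⊆ lca T x y := by
      rw [← not_ssubset_iff' h.1 (hW hx) (hW hy0) (hW hy)]
      exact fun h8 => h2 ⟨y, hW hy, hs0.symm, h8⟩
    have h9 : lca T x y = lca T x y0 := Subset.antisymm h6 h7
    rw [h.2.2 x (hW hx) y (hW hy)]
    refine ⟨hxy, ?_, ?_⟩
    · rw [h9, ← hs0]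
      exact h2
    · rw [h9, ← hs0]
      exact h3

end aux

/-- Let `(G, σ)` be a quasi-best match graph with vertex set `L`, explained by `(T, σ, u)` (in
particular, `T` may be any least resolved tree of `(G, σ)`), and let `W` be any set of vertices
such that `(G, σ)[W]` is a best match graph with least resolved tree `TW`. Then `T` displays
`TW`. -/
theorem result {L S : Type} [Fintype L] (σ : L → S) (G : L → L → Prop)
    (T : Finset (Finset L)) (u : L → S → Finset L) (hT : Explains σ G univ T u)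
    (W : Finset L) (TW : Finset (Finset L)) (hTW : IsLeastResolvedBMG σ G W TW) :
    Displays T TW W := by
  have hR := restr_explains hT (subset_univ W) hTW.1
  have hI := explains_inter hTW.1 hR
  have hD : Displays TW (TW ∩ restr T W) W := by
    refine ⟨hI.1, fun C hC => ⟨C, (mem_inter.1 hC).1, ?_⟩⟩
    exact (inter_eq_left.2 (hI.1.sub C hC)).symm
  have hEq : TW ∩ restr T W = TW := by
    by_contra hne
    exact hTW.2 _ hD hne hI
  refine ⟨hTW.1.1, fun C hC => ?_⟩
  rw [← hEq, mem_inter, mem_restr] at hC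
  obtain ⟨_, ⟨D, hD, h1⟩, _⟩ := hC
  exact ⟨D, hD, h1.symm⟩

end Pool.Agent.Results.MP_5c2e51_co.LRTDisplayed
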